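import Pool.Agent.Lib.MP_310563_al.Orient

set_option autoImplicit false

open Pool.Agent.Lib.MP_310563_al

namespace Pool.Agent.Results.MP_310563_al.InfiniteTorsion

/-- There is a locally finite planar tree `A`, namely `A_{2,1}` (one vertex of degree one, all
others of degree three), with a thickening and rigid structure, and an infinite group `H` of
orientation preserving asymptotically rigid homeomorphisms of the punctured surface, all of finite
order and pairwise non-isotopic.  So the classes of the elements of `H` form an infinite torsion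
subgroup of `mod(A) = brT_{2,1}`. -/
theorem result :
    ∃ (A : PlanarTree) (R : RigidSurface A),
      (∃ root : A.V, (A.G.neighborSet root).ncard = 1 ∧
        ∀ v, v ≠ root → (A.G.neighborSet v).ncard = 3) ∧
      ∃ H : Subgroup (R.punctured ≃ₜ R.punctured),
        (H : Set (R.punctured ≃ₜ R.punctured)).Infinite ∧
        (∀ φ ∈ H, R.OrientationPreserving φ ∧ R.AsymptoticallyRigid φ ∧ IsOfFinOrder φ) ∧
        ∀ φ ∈ H, ∀ ψ ∈ H, R.Isotopic φ ψ → φ = ψ := by
  refine ⟨data.tree, data.surface, ⟨(0 : ℕ), ?_, ?_⟩, HH, HH_infinite, ?_,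
    fun φ hφ ψ hψ h => eq_of_isotopic hφ hψ h⟩
  · change (heap.neighborSet 0).ncard = 1
    rw [heap_nbr_zero, Set.ncard_singleton]
  · intro (v : ℕ) hv
    have hv' : v ≠ 0 := hv
    change (heap.neighborSet v).ncard = 3
    rw [heap_nbr hv', Set.ncard_eq_three]
    exact ⟨_, _, _, by omega, by omega, by omega, rfl⟩
  · rintro _ ⟨j, k, rfl⟩
    exact ⟨homeo_orient j k, homeo_rigid j k, homeo_finOrder j k⟩

end Pool.Agent.Results.MP_310563_al.InfiniteTorsion
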